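import Pool.Agent.Helper63.P705.NR.Goals
import Pool.Agent.Helper53.PT.A

/-!
# MP_705522_gt: packet NR-GP (`RR > 0`)
-/

namespace Pool.Agent.Helper79.NR

open MeasureTheory Set Filter Topology
open Pool.Agent.Helper53.PT
open Pool.Agent.Helper63.P705.NR

theorem exp_lower : (1 : ℝ) / 4 ≤ Real.exp (-(1.38 : ℝ)) := by
  have h1 : Real.exp (-(2 * Real.log 2)) ≤ Real.exp (-(1.38 : ℝ)) := by
    apply Real.exp_le_exp.2
    have := Real.log_two_gt_d9
    linarith
  have h2 : Real.exp (-(2 * Real.log 2)) = 1 / 4 := by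
    rw [Real.exp_neg, two_mul, Real.exp_add, Real.exp_log (by norm_num)]
    norm_num
  rw [h2] at h1
  exact h1

theorem log50 : Real.log 50 ≤ 4 := by
  rw [Real.log_le_iff_le_exp (by norm_num)]
  have h1 := Real.exp_one_gt_d9
  have h2 : Real.exp 4 = Real.exp 1 ^ 4 := by rw [← Real.exp_nat_mul]; norm_num
  rw [h2]
  calc (50 : ℝ) ≤ (2.7182818283 : ℝ) ^ 4 := by norm_num
    _ ≤ Real.exp 1 ^ 4 := by gcongr

/-- `δ^(-2p) ` is not large -/
theorem rpow_u {θ u : ℝ} (h0 : 0.49 ≤ θ) (h1 : θ < 1 / 2) (hu : 0 < u) (hud : u ≤ (de θ)⁻¹ ^ 2) :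
    0.7 ≤ u ^ (-(1 / θ - 2)) := by
  have hd : 0 < de θ := by unfold de; linarith
  have hd2 : de θ ≤ 0.02 := by unfold de; linarith
  have hθ : 0 < θ := by linarith
  have hp : 1 / θ - 2 = de θ / θ := by unfold de; field_simp
  have hp0 : 0 ≤ 1 / θ - 2 := by rw [hp]; positivity
  have hp1 : 1 / θ - 2 ≤ de θ / 0.49 := by
    rw [hp]
    exact div_le_div_of_nonneg_left hd.le (by norm_num) h0
  have hl : -(de θ * Real.log (de θ)) ≤ 0.08 := by
    have h2 := Real.log_le_sub_one_of_pos (show (0 : ℝ) < 0.02 / de θ by positivity)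
    rw [Real.log_div (by norm_num) hd.ne'] at h2
    have h3 : Real.log 0.02 = -Real.log 50 := by
      rw [← Real.log_inv]; norm_num
    rw [h3] at h2
    have h4 := log50
    have h5 : de θ * (-Real.log 50 - Real.log (de θ)) ≤ de θ * (0.02 / de θ - 1) :=
      mul_le_mul_of_nonneg_left h2 hd.le
    have h6 : de θ * (0.02 / de θ - 1) = 0.02 - de θ := by field_simp
    have h7 : de θ * Real.log 50 ≤ de θ * 4 := mul_le_mul_of_nonneg_left h4 hd.le
    nlinarith
  have hlog : Real.log u ≤ -2 * Real.log (de θ) := by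
    have := Real.log_le_log hu hud
    rw [Real.log_pow, Real.log_inv] at this
    push_cast at this
    linarith
  have hld : 0 ≤ -Real.log (de θ) := by
    have := Real.log_nonpos hd.le (by linarith)
    linarith
  have hexp : (1 / θ - 2) * Real.log u ≤ 0.32654 := by
    calc (1 / θ - 2) * Real.log u ≤ (1 / θ - 2) * (-2 * Real.log (de θ)) :=
          mul_le_mul_of_nonneg_left hlog hp0
      _ = 2 * ((1 / θ - 2) * (-Real.log (de θ))) := by ring
      _ ≤ 2 * (de θ / 0.49 * (-Real.log (de θ))) := by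
          have := mul_le_mul_of_nonneg_right hp1 hld
          linarith
      _ = 2 / 0.49 * (-(de θ * Real.log (de θ))) := by ring
      _ ≤ 2 / 0.49 * 0.08 := by
          apply mul_le_mul_of_nonneg_left hl (by norm_num)
      _ ≤ 0.32654 := by norm_num
  rw [Real.rpow_def_of_pos hu]
  have h8 : -0.32654 ≤ Real.log u * -(1 / θ - 2) := by
    have : Real.log u * -(1 / θ - 2) = -((1 / θ - 2) * Real.log u) := by ring
    rw [this]; linarith
  have h9 : (0.7 : ℝ) ≤ Real.exp (-0.32654) := by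
    have h10 : Real.exp (-0.32654) = Real.exp (-0.16327) ^ 2 := by
      rw [← Real.exp_nat_mul]; norm_num
    rw [h10]
    have h11 := Real.add_one_le_exp (-0.16327 : ℝ)
    have h12 : (0 : ℝ) ≤ -0.16327 + 1 := by norm_num
    calc (0.7 : ℝ) ≤ (-0.16327 + 1) ^ 2 := by norm_num
      _ ≤ Real.exp (-0.16327) ^ 2 := by gcongr
  exact h9.trans (Real.exp_le_exp.2 h8)

theorem zf_anti {θ : ℝ} (hθ : 0 < θ) (hk : 0 < kap θ) (hs : 0 < sg θ) {x y : ℝ} (hx : 0 ≤ x)
    (hxy : x ≤ y) : zf θ y ≤ zf θ x := by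
  unfold zf
  apply mul_le_mul_of_nonneg_left _ (by positivity)
  apply Real.exp_le_exp.2
  have : x ^ (1 / θ) ≤ y ^ (1 / θ) := Real.rpow_le_rpow hx hxy (by positivity)
  have h2 : 0 < kap θ * θ := by positivity
  nlinarith

theorem kp_bound {θ : ℝ} (h0 : 0.49 ≤ θ) (h1 : θ < 1 / 2)
    (hk2 : kap θ ≤ Real.exp (0.806 * (1 / θ - 2))) :
    kap θ * (Real.pi / 2) ^ (1 / θ - 2) ≤ 1.06 ∧ kap θ ≤ 1.06 := by
  have hθ : 0 < θ := by linarith
  have hp0 : 0 ≤ 1 / θ - 2 := by
    have : 2 ≤ 1 / θ := by rw [le_div_iff₀ hθ]; linarith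
    linarith
  have hp1 : 1 / θ - 2 ≤ 0.040817 := by
    have : 1 / θ ≤ 1 / 0.49 := by
      apply one_div_le_one_div_of_le (by norm_num) h0
    have h2 : (1 : ℝ) / 0.49 ≤ 2.040817 := by norm_num
    linarith
  have hpi := Real.pi_gt_three
  have hpi2 := Real.pi_lt_d4
  have hpp : (0 : ℝ) < Real.pi / 2 := by positivity
  have h3 : (Real.pi / 2) ^ (1 / θ - 2) ≤ Real.exp (0.5708 * (1 / θ - 2)) := by
    rw [Real.rpow_def_of_pos hpp]
    apply Real.exp_le_exp.2
    apply mul_le_mul_of_nonneg_right _ hp0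
    have := Real.log_le_sub_one_of_pos hpp
    linarith
  have hexp : Real.exp (1.3768 * (1 / θ - 2)) ≤ 1.06 := by
    have h4 : 1.3768 * (1 / θ - 2) ≤ 0.0562 := by nlinarith
    have h5 : Real.exp (1.3768 * (1 / θ - 2)) ≤ Real.exp 0.0562 := Real.exp_le_exp.2 h4
    have h6 := Real.add_one_le_exp (-0.0562 : ℝ)
    have h7 : Real.exp (0.0562 : ℝ) * Real.exp (-0.0562) = 1 := by
      rw [← Real.exp_add]; norm_num
    have h8 := Real.exp_pos (0.0562 : ℝ)
    nlinarith
  have hkp : kap θ * (Real.pi / 2) ^ (1 / θ - 2) ≤ 1.06 := by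
    calc kap θ * (Real.pi / 2) ^ (1 / θ - 2)
        ≤ Real.exp (0.806 * (1 / θ - 2)) * Real.exp (0.5708 * (1 / θ - 2)) := by
          apply mul_le_mul hk2 h3 (by positivity) (by positivity)
      _ = Real.exp (1.3768 * (1 / θ - 2)) := by rw [← Real.exp_add]; congr 1; ring
      _ ≤ 1.06 := hexp
  refine ⟨hkp, ?_⟩
  refine hk2.trans (le_trans ?_ hexp)
  apply Real.exp_le_exp.2
  nlinarith

/-- lower bounds of `z` -/
theorem zf_low {θ : ℝ} (h0 : 0.49 ≤ θ) (h1 : θ < 1 / 2) (hs : 0 < sg θ) (hk1 : 1 ≤ kap θ)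
    (hk2 : kap θ ≤ Real.exp (0.806 * (1 / θ - 2))) (hC : 0.797 ≤ 1 / sg θ) :
    0.199 ≤ zf θ (Real.pi / 2) ∧ 0.37 ≤ zf θ 1 := by
  have hθ : 0 < θ := by linarith
  obtain ⟨hb1, hb2⟩ := kp_bound h0 h1 hk2
  have hpi := Real.pi_gt_three
  have hpi2 := Real.pi_lt_d4
  have hpp : (0 : ℝ) < Real.pi / 2 := by positivity
  constructor
  · unfold zf
    have e1 : (Real.pi / 2) ^ (1 / θ) = (Real.pi / 2) ^ 2 * (Real.pi / 2) ^ (1 / θ - 2) := by
      rw [← Real.rpow_natCast, ← Real.rpow_add hpp]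
      congr 1
      push_cast
      ring
    have h2 : kap θ * θ * (Real.pi / 2) ^ (1 / θ) ≤ 1.38 := by
      rw [e1]
      have h3 : (Real.pi / 2) ^ 2 ≤ 2.4675 := by nlinarith
      have h4 : kap θ * θ * ((Real.pi / 2) ^ 2 * (Real.pi / 2) ^ (1 / θ - 2)) =
        θ * (Real.pi / 2) ^ 2 * (kap θ * (Real.pi / 2) ^ (1 / θ - 2)) := by ring
      rw [h4]
      have h5 : θ * (Real.pi / 2) ^ 2 ≤ 0.5 * 2.4675 := by
        apply mul_le_mul (by linarith) h3 (by positivity) (by norm_num)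
      have h6 : 0 ≤ kap θ * (Real.pi / 2) ^ (1 / θ - 2) := by positivity
      calc θ * (Real.pi / 2) ^ 2 * (kap θ * (Real.pi / 2) ^ (1 / θ - 2))
          ≤ (0.5 * 2.4675) * 1.06 := by
            apply mul_le_mul h5 hb1 h6 (by norm_num)
        _ ≤ 1.38 := by norm_num
    have h7 : Real.exp (-(1.38 : ℝ)) ≤ Real.exp (-(kap θ * θ * (Real.pi / 2) ^ (1 / θ))) := by
      apply Real.exp_le_exp.2; linarith
    have h8 := exp_lower
    have h9 : (1 : ℝ) / 4 ≤ Real.exp (-(kap θ * θ * (Real.pi / 2) ^ (1 / θ))) := h8.trans h7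
    calc (0.199 : ℝ) ≤ 0.797 * (1 / 4) := by norm_num
      _ ≤ _ := by apply mul_le_mul hC h9 (by norm_num) (by positivity)
  · unfold zf
    rw [Real.one_rpow, mul_one]
    have h2 := Real.add_one_le_exp (-(kap θ * θ))
    have h3 : kap θ * θ ≤ 1.06 * 0.5 := by
      apply mul_le_mul hb2 (by linarith) hθ.le (by norm_num)
    have h4 : (0.47 : ℝ) ≤ Real.exp (-(kap θ * θ)) := by linarith
    calc (0.37 : ℝ) ≤ 0.797 * 0.47 := by norm_num
      _ ≤ _ := by apply mul_le_mul hC h4 (by norm_num) (by positivity)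

theorem int_sin (u a b : ℝ) (hu : 0 < u) :
    ∫ y in a..b, Real.sin (u * y) = (Real.cos (u * a) - Real.cos (u * b)) / u := by
  rw [intervalIntegral.integral_comp_mul_left (fun x => Real.sin x) hu.ne', integral_sin]
  rw [smul_eq_mul]
  field_simp

theorem integrableOn_shift {h : ℝ → ℝ} {a : ℝ} (hI : IntegrableOn h (Ioi a)) :
    IntegrableOn (fun y => h (y + a)) (Ioi 0) := by
  rw [← integrable_indicator_iff measurableSet_Ioi] at hI ⊢
  have := hI.comp_add_right a
  refine this.congr (ae_of_all _ fun y => ?_)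
  by_cases hy : 0 < y
  · rw [indicator_of_mem (show y ∈ Ioi (0 : ℝ) from hy)]
    show (Ioi a).indicator h (y + a) = h (y + a)
    rw [indicator_of_mem (show y + a ∈ Ioi a from by simp [hy])]
  · rw [indicator_of_notMem (show y ∉ Ioi (0 : ℝ) from hy)]
    show (Ioi a).indicator h (y + a) = 0
    rw [indicator_of_notMem (show y + a ∉ Ioi a from by simpa using hy)]

/-- the main lower bound -/
theorem main_low {θ : ℝ} (h0 : 0.49 ≤ θ) (h1 : θ < 1 / 2) (hs : 0 < sg θ) (hk1 : 1 ≤ kap θ)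
    (hI : IntegrableOn (fun y => ff θ y / (θ * y)) (Ioi 0)) (hS : GS) {u : ℝ} (hu : 0 < u) :
    0.9 * zf θ (Real.pi / u) * u ^ (-(1 / θ - 2)) ≤
      ∫ y in Ioi (0 : ℝ), ff θ y / (θ * y) * Real.sin (u * y) := by
  have hθ : 0 < θ := by linarith
  have hk : 0 < kap θ := by linarith
  set p : ℝ := 1 / θ - 2 with hp
  have hp0 : 0 < p := by
    have : 2 < 1 / θ := by rw [lt_div_iff₀ hθ]; linarith
    linarith
  have hp1 : p ≤ 0.040817 := by
    have : 1 / θ ≤ 1 / 0.49 := by
      apply one_div_le_one_div_of_le (by norm_num) h0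
    have h2 : (1 : ℝ) / 0.49 ≤ 2.040817 := by norm_num
    linarith
  have hpi := Real.pi_gt_three
  have hpi2 := Real.pi_lt_d4
  have hpu : 0 < Real.pi / u := by positivity
  have hz : ∀ y, 0 < zf θ y := by
    intro y; unfold zf; positivity
  have hh : ∀ y, 0 < y → ff θ y / (θ * y) = kap θ / θ * (y ^ (p - 1) * zf θ y) := by
    intro y hy
    unfold ff vf
    rw [← hp, Real.rpow_sub_one hy.ne']
    field_simp
  have hanti1 : ∀ x y : ℝ, 0 < x → x ≤ y → y ^ (p - 1) ≤ x ^ (p - 1) := by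
    intro x y hx hxy
    exact Real.rpow_le_rpow_of_nonpos hx hxy (by linarith)
  have hanti : AntitoneOn (fun y => ff θ y / (θ * y)) (Ioi 0) := by
    intro x hx y hy hxy
    have hx' : (0 : ℝ) < x := hx
    have hy' : (0 : ℝ) < y := hy
    show ff θ y / (θ * y) ≤ ff θ x / (θ * x)
    rw [hh y hy', hh x hx']
    apply mul_le_mul_of_nonneg_left _ (by positivity)
    exact mul_le_mul (hanti1 x y hx' hxy) (zf_anti hθ hk hs hx'.le hxy) (hz y).le (by positivity)
  have hnn : ∀ y, 0 < y → 0 ≤ ff θ y / (θ * y) := by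
    intro y hy
    rw [hh y hy]
    have := hz y
    positivity
  refine le_trans ?_ (hS _ hanti hnn hI u hu)
  -- pointwise lower bound of the difference
  set A : ℝ := kap θ / θ * zf θ (Real.pi / u) * 0.479 with hA
  have hA0 : 0 ≤ A := by
    have := hz (Real.pi / u)
    positivity
  have h2p : (2 : ℝ) ^ (p - 1) ≤ 0.521 := by
    rw [Real.rpow_sub_one (by norm_num)]
    have h3 : (2 : ℝ) ^ p ≤ 1 + p * 1 := by
      have := rpow_one_add_le_one_add_mul_self (by norm_num : (-1 : ℝ) ≤ 1) hp0.le (by linarith)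
      have e : (1 : ℝ) + 1 = 2 := by norm_num
      rw [e] at this
      exact this
    linarith
  have hdiff : ∀ y, 0 < y → y ≤ Real.pi / u →
      A * y ^ (p - 1) ≤ ff θ y / (θ * y) - ff θ (y + Real.pi / u) / (θ * (y + Real.pi / u)) := by
    intro y hy hyu
    have hy2 : 0 < y + Real.pi / u := by positivity
    rw [hh y hy, hh _ hy2]
    have h3 : zf θ (Real.pi / u) ≤ zf θ y := zf_anti hθ hk hs hy.le hyu
    have h4 : zf θ (y + Real.pi / u) ≤ zf θ (Real.pi / u) :=
      zf_anti hθ hk hs hpu.le (by linarith)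
    have h5 : (y + Real.pi / u) ^ (p - 1) ≤ (2 * y) ^ (p - 1) := hanti1 _ _ (by positivity) (by linarith)
    have h6 : (2 * y) ^ (p - 1) = 2 ^ (p - 1) * y ^ (p - 1) := Real.mul_rpow (by norm_num) hy.le
    have hyp : 0 < y ^ (p - 1) := Real.rpow_pos_of_pos hy _
    have h7 : (y + Real.pi / u) ^ (p - 1) ≤ 0.521 * y ^ (p - 1) := by
      rw [h6] at h5
      exact h5.trans (mul_le_mul_of_nonneg_right h2p hyp.le)
    have h8 : y ^ (p - 1) * zf θ (Real.pi / u) ≤ y ^ (p - 1) * zf θ y :=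
      mul_le_mul_of_nonneg_left h3 hyp.le
    have h9 : (y + Real.pi / u) ^ (p - 1) * zf θ (y + Real.pi / u) ≤
        (0.521 * y ^ (p - 1)) * zf θ (Real.pi / u) :=
      mul_le_mul h7 h4 (hz _).le (by positivity)
    have hkθ : 0 < kap θ / θ := by positivity
    have h10 : zf θ (Real.pi / u) * 0.479 * y ^ (p - 1) ≤
        y ^ (p - 1) * zf θ y - (y + Real.pi / u) ^ (p - 1) * zf θ (y + Real.pi / u) := by
      linarith
    calc A * y ^ (p - 1) = kap θ / θ * (zf θ (Real.pi / u) * 0.479 * y ^ (p - 1)) := by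
          rw [hA]; ring
      _ ≤ kap θ / θ * (y ^ (p - 1) * zf θ y - (y + Real.pi / u) ^ (p - 1) *
          zf θ (y + Real.pi / u)) := mul_le_mul_of_nonneg_left h10 hkθ.le
      _ = _ := by ring
  -- powers of y
  have hu1 : 0 < u ^ (1 - p) := Real.rpow_pos_of_pos hu _
  have hpow : ∀ y, 0 < y → y ^ (p - 1) = u ^ (1 - p) * (u * y) ^ (p - 1) := by
    intro y hy
    rw [Real.mul_rpow hu.le hy.le, ← mul_assoc, ← Real.rpow_add hu]
    have : 1 - p + (p - 1) = 0 := by ring
    rw [this, Real.rpow_zero, one_mul]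
  have hlow1 : ∀ y, 0 < y → y ≤ 1 / u → u ^ (1 - p) ≤ y ^ (p - 1) := by
    intro y hy hyu
    rw [hpow y hy]
    have h3 : u * y ≤ 1 := by
      rw [le_div_iff₀ hu] at hyu; linarith
    have h4 : 1 ≤ (u * y) ^ (p - 1) :=
      Real.one_le_rpow_of_pos_of_le_one_of_nonpos (by positivity) h3 (by linarith)
    nlinarith
  have hlow2 : ∀ y, 0 < y → 1 / u ≤ y → y ≤ Real.pi / u → u ^ (1 - p) / Real.pi ≤ y ^ (p - 1) := by
    intro y hy hyu hyu2
    rw [hpow y hy]
    have h3 : 1 ≤ u * y := by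
      rw [div_le_iff₀ hu] at hyu; linarith
    have h4 : u * y ≤ Real.pi := by
      rw [le_div_iff₀ hu] at hyu2; linarith
    have h5 : (u * y) ^ (-1 : ℝ) ≤ (u * y) ^ (p - 1) :=
      Real.rpow_le_rpow_of_exponent_le h3 (by linarith)
    have h6 : 1 / Real.pi ≤ (u * y) ^ (-1 : ℝ) := by
      rw [Real.rpow_neg_one, ← one_div]
      exact one_div_le_one_div_of_le (by linarith) h4
    rw [div_eq_mul_one_div]
    exact mul_le_mul_of_nonneg_left (h6.trans h5) hu1.le
  -- integrability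
  set F : ℝ → ℝ := fun y => (ff θ y / (θ * y) - ff θ (y + Real.pi / u) / (θ * (y + Real.pi / u))) *
    Real.sin (u * y) with hF
  have hFint : IntegrableOn F (Ioi 0) := by
    have i2 : IntegrableOn (fun y => ff θ (y + Real.pi / u) / (θ * (y + Real.pi / u))) (Ioi 0) := by
      have h3 := hI.mono_set (Ioi_subset_Ioi hpu.le)
      exact integrableOn_shift h3
    have i3 := hI.sub i2
    have : Integrable (fun y => Real.sin (u * y) *
        ((fun y => ff θ y / (θ * y)) y - ff θ (y + Real.pi / u) / (θ * (y + Real.pi / u))))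
        (volume.restrict (Ioi 0)) := by
      apply Integrable.bdd_mul (c := 1) i3
      · exact (by fun_prop : Continuous fun y : ℝ => Real.sin (u * y)).aestronglyMeasurable
      · exact ae_of_all _ fun y => by rw [Real.norm_eq_abs]; exact Real.abs_sin_le_one _
    refine this.congr (ae_of_all _ fun y => ?_)
    simp only [hF]
    ring
  have hinv : 0 < 1 / u := by positivity
  have hle : 1 / u ≤ Real.pi / u := by
    apply div_le_div_of_nonneg_right _ hu.le; linarith
  have hF1 : IntervalIntegrable F volume 0 (1 / u) :=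
    (intervalIntegrable_iff_integrableOn_Ioc_of_le hinv.le).2
      (hFint.mono_set Ioc_subset_Ioi_self)
  have hF2 : IntervalIntegrable F volume (1 / u) (Real.pi / u) :=
    (intervalIntegrable_iff_integrableOn_Ioc_of_le hle).2
      (hFint.mono_set (Ioc_subset_Ioi_self.trans (Ioi_subset_Ioi hinv.le)))
  show _ ≤ ∫ y in (0 : ℝ)..(Real.pi / u), F y
  rw [← intervalIntegral.integral_add_adjacent_intervals hF1 hF2]
  have hsin : ∀ y, 0 < y → y < Real.pi / u → 0 ≤ Real.sin (u * y) := by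
    intro y hy hyu
    apply Real.sin_nonneg_of_nonneg_of_le_pi (by positivity)
    rw [lt_div_iff₀ hu] at hyu
    linarith
  have b1 : ∫ y in (0 : ℝ)..(1 / u), A * u ^ (1 - p) * Real.sin (u * y) ≤
      ∫ y in (0 : ℝ)..(1 / u), F y := by
    apply intervalIntegral.integral_mono_on_of_le_Ioo hinv.le
    · exact (by fun_prop : Continuous fun y : ℝ => A * u ^ (1 - p) * Real.sin (u * y)).intervalIntegrable _ _
    · exact hF1
    · intro y hy
      have h3 := hlow1 y hy.1 hy.2.le
      have h4 := hdiff y hy.1 (hy.2.le.trans hle)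
      have h5 := hsin y hy.1 (hy.2.trans_le hle)
      simp only [hF]
      apply mul_le_mul_of_nonneg_right _ h5
      exact (mul_le_mul_of_nonneg_left h3 hA0).trans h4
  have b2 : ∫ y in (1 / u)..(Real.pi / u), A * (u ^ (1 - p) / Real.pi) * Real.sin (u * y) ≤
      ∫ y in (1 / u)..(Real.pi / u), F y := by
    apply intervalIntegral.integral_mono_on_of_le_Ioo hle
    · exact (by fun_prop : Continuous fun y : ℝ =>
        A * (u ^ (1 - p) / Real.pi) * Real.sin (u * y)).intervalIntegrable _ _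
    · exact hF2
    · intro y hy
      have hy0 : 0 < y := hinv.trans hy.1
      have h3 := hlow2 y hy0 hy.1.le hy.2.le
      have h4 := hdiff y hy0 hy.2.le
      have h5 := hsin y hy0 hy.2
      simp only [hF]
      apply mul_le_mul_of_nonneg_right _ h5
      exact (mul_le_mul_of_nonneg_left h3 hA0).trans h4
  rw [intervalIntegral.integral_const_mul, int_sin u _ _ hu] at b1 b2
  have e1 : u * (1 / u) = 1 := by field_simp
  have e2 : u * (Real.pi / u) = Real.pi := by field_simp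
  rw [mul_zero, Real.cos_zero, e1] at b1
  rw [e1, e2, Real.cos_pi] at b2
  refine le_trans ?_ (add_le_add b1 b2)
  have hc := Real.cos_one_le
  have e3 : u ^ (1 - p) = u * u ^ (-p) := by
    rw [Real.rpow_sub hu, Real.rpow_one, Real.rpow_neg hu.le]
    ring
  have hup : 0 < u ^ (-p) := Real.rpow_pos_of_pos hu _
  have e4 : A * u ^ (1 - p) * ((1 - Real.cos 1) / u) +
      A * (u ^ (1 - p) / Real.pi) * ((Real.cos 1 - -1) / u) =
      A * u ^ (-p) * ((1 - Real.cos 1) + (1 + Real.cos 1) / Real.pi) := by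
    rw [e3]
    field_simp
    ring
  rw [e4]
  have h11 : 0.9395 ≤ (1 - Real.cos 1) + (1 + Real.cos 1) / Real.pi := by
    have h12 : (1 + Real.cos 1) / 3.1416 ≤ (1 + Real.cos 1) / Real.pi := by
      apply div_le_div_of_nonneg_left _ (by positivity) hpi2.le
      have := Real.cos_one_pos
      linarith
    have h13 : (0.9395 : ℝ) ≤ (1 - Real.cos 1) + (1 + Real.cos 1) / 3.1416 := by
      rw [div_eq_mul_inv]
      have : ((3.1416 : ℝ))⁻¹ ≥ 0.3183 := by norm_num
      have : ((3.1416 : ℝ))⁻¹ ≤ 0.3184 := by norm_num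
      have hcp := Real.cos_one_pos
      norm_num
      nlinarith
    linarith
  have h14 : 2 ≤ kap θ / θ := by
    rw [le_div_iff₀ hθ]; linarith
  have hzp := hz (Real.pi / u)
  have h15 : 2 * zf θ (Real.pi / u) * 0.479 ≤ A := by
    rw [hA]
    have := mul_le_mul_of_nonneg_right h14 hzp.le
    linarith
  calc 0.9 * zf θ (Real.pi / u) * u ^ (-p)
      ≤ (2 * zf θ (Real.pi / u) * 0.479) * u ^ (-p) * 0.9395 := by
        have h16 : 0 < zf θ (Real.pi / u) * u ^ (-p) := by positivity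
        nlinarith
    _ ≤ A * u ^ (-p) * ((1 - Real.cos 1) + (1 + Real.cos 1) / Real.pi) := by
        apply mul_le_mul _ h11 (by norm_num) (by positivity)
        exact mul_le_mul_of_nonneg_right h15 hup.le

/-- `GR` needs `GF` -/
theorem gP (hGF : GF) : GP := by
  intro hD hM hC hN hF0 hS θ h0 h1 u hu
  have hθ : 0 < θ := by linarith
  obtain ⟨hk, hs, -, -, -, -, -, -⟩ := hD θ hθ h1
  obtain ⟨hC1, hC2, hk1, hk2, -, -⟩ := hC hD hM θ h0 h1
  obtain ⟨hn1, hn2, hn3, hn4, hn5, hn6⟩ := hN hD hM hC θ h0 h1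
  have hd : 0 < de θ := by unfold de; linarith
  have hd2 : de θ ≤ 0.02 := by unfold de; linarith
  obtain ⟨hI, hR1, hR2⟩ := hF0 hD hM hGF θ h0 h1 u hu
  set E : ℝ := ∫ y in Ioi (0 : ℝ), nf θ y * Real.sin (u * y) with hE
  have hinvθ : 2 < 1 / θ := by rw [lt_div_iff₀ hθ]; linarith
  suffices h : 0 < u * RR θ (u ^ 2) from (mul_pos_iff_of_pos_left hu).1 h
  rw [hR1]
  by_cases hu2 : u ≤ 2
  · -- small `u`
    rw [hR2]
    have hc := continuous_f0 hθ h1
    have b1 : ∫ τ in (0 : ℝ)..1, (1 - u ^ 2 / 2 * τ ^ 2) ≤ ∫ τ in (0 : ℝ)..1, f0 θ ((τ * u) ^ 2) := by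
      apply intervalIntegral.integral_mono_on (by norm_num)
      · exact (by fun_prop : Continuous fun τ : ℝ => 1 - u ^ 2 / 2 * τ ^ 2).intervalIntegrable _ _
      · exact (hc.comp (by fun_prop : Continuous fun τ : ℝ => (τ * u) ^ 2)).intervalIntegrable _ _
      · intro τ _
        have := (aBD hθ h1 (sq_nonneg (τ * u))).2.1
        have e : u ^ 2 / 2 * τ ^ 2 = (τ * u) ^ 2 / 2 := by ring
        rw [e]
        exact this
    have b2 : ∫ τ in (0 : ℝ)..1, (1 - u ^ 2 / 2 * τ ^ 2) = 1 - u ^ 2 / 6 := by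
      rw [intervalIntegral.integral_sub (by simp) ((by fun_prop : Continuous fun τ : ℝ =>
        u ^ 2 / 2 * τ ^ 2).intervalIntegrable _ _), intervalIntegral.integral_const_mul, integral_pow]
      simp only [intervalIntegral.integral_const, smul_eq_mul]
      norm_num
      ring
    rw [b2] at b1
    have b3 : (1 : ℝ) / 3 ≤ ∫ τ in (0 : ℝ)..1, f0 θ ((τ * u) ^ 2) := by
      refine le_trans ?_ b1
      nlinarith
    have b4 : |E| ≤ u * (9.4 * de θ) := by
      have b5 : ‖E‖ ≤ ∫ y in Ioi (0 : ℝ), u * (y * nf θ y) := by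
        apply norm_integral_le_of_norm_le (hn3.const_mul u)
        rw [ae_restrict_iff' measurableSet_Ioi]
        refine ae_of_all _ fun y hy => ?_
        have hy' : (0 : ℝ) < y := hy
        rw [Real.norm_eq_abs, abs_mul, abs_of_nonneg (hn1 y hy')]
        have : |Real.sin (u * y)| ≤ u * y := by
          have h3 := Real.abs_sin_le_abs (x := u * y)
          rwa [abs_of_nonneg (by positivity : 0 ≤ u * y)] at h3
        calc nf θ y * |Real.sin (u * y)| ≤ nf θ y * (u * y) :=
              mul_le_mul_of_nonneg_left this (hn1 y hy')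
          _ = u * (y * nf θ y) := by ring
      rw [integral_const_mul] at b5
      exact b5.trans (mul_le_mul_of_nonneg_left hn5 hu.le)
    have b6 := (abs_le.1 b4).2
    have b7 : u / θ * (1 / 3) ≤ u / θ * ∫ τ in (0 : ℝ)..1, f0 θ ((τ * u) ^ 2) :=
      mul_le_mul_of_nonneg_left b3 (by positivity)
    have b8 : u * 2 < u / θ := by
      rw [div_eq_mul_one_div]
      exact mul_lt_mul_of_pos_left hinvθ hu
    nlinarith
  · push Not at hu2
    have hmain := main_low h0 h1 hs hk1 hI hS hu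
    obtain ⟨hz1, hz2⟩ := zf_low h0 h1 hs hk1 hk2 hC1
    have hup : 0 < u ^ (-(1 / θ - 2)) := Real.rpow_pos_of_pos hu _
    by_cases hud : u ≤ (de θ)⁻¹ ^ 2
    · have hr := rpow_u h0 h1 hu hud
      have hzu : zf θ (Real.pi / 2) ≤ zf θ (Real.pi / u) := by
        apply zf_anti hθ hk hs (by positivity)
        apply div_le_div_of_nonneg_left Real.pi_pos.le (by norm_num) hu2.le
      have b4 : |E| ≤ 4.6 * de θ := by
        have b5 : ‖E‖ ≤ ∫ y in Ioi (0 : ℝ), nf θ y := by
          apply norm_integral_le_of_norm_le hn2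
          rw [ae_restrict_iff' measurableSet_Ioi]
          refine ae_of_all _ fun y hy => ?_
          have hy' : (0 : ℝ) < y := hy
          rw [Real.norm_eq_abs, abs_mul, abs_of_nonneg (hn1 y hy')]
          exact mul_le_of_le_one_right (hn1 y hy') (Real.abs_sin_le_one _)
        exact b5.trans hn4
      have b6 := (abs_le.1 b4).2
      have b7 : 0.9 * 0.199 * 0.7 ≤ 0.9 * zf θ (Real.pi / u) * u ^ (-(1 / θ - 2)) := by
        apply mul_le_mul _ hr (by norm_num) (by
          have : 0.199 ≤ zf θ (Real.pi / u) := hz1.trans hzu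
          nlinarith)
        apply mul_le_mul_of_nonneg_left (hz1.trans hzu) (by norm_num)
      nlinarith
    · push Not at hud
      -- very large `u`
      have hdi : 50 ≤ (de θ)⁻¹ := by
        rw [le_inv_comm₀ (by norm_num) hd]
        norm_num
        linarith
      have hu50 : 2500 ≤ (de θ)⁻¹ ^ 2 := by nlinarith
      have hzu : zf θ 1 ≤ zf θ (Real.pi / u) := by
        apply zf_anti hθ hk hs (by positivity)
        rw [div_le_one hu]
        have := Real.pi_lt_d4
        linarith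
      have b4 : |E| ≤ 9 / (de θ * u) := hn6 u hu
      have b6 := (abs_le.1 b4).2
      -- `u^(1-p)`
      set p : ℝ := 1 / θ - 2 with hp
      have hp0 : 0 < p := by linarith
      have hp1 : p ≤ 0.040817 := by
        have : 1 / θ ≤ 1 / 0.49 := by
          apply one_div_le_one_div_of_le (by norm_num) h0
        have h2 : (1 : ℝ) / 0.49 ≤ 2.040817 := by norm_num
        linarith
      have hD2 : 0 < (de θ)⁻¹ ^ 2 := by positivity
      have hr := rpow_u h0 h1 hD2 le_rfl
      rw [← hp] at hr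
      have b8 : (de θ)⁻¹ ^ 2 * 0.7 ≤ u * u ^ (-p) := by
        have e1 : u * u ^ (-p) = u ^ (1 - p) := by
          rw [Real.rpow_sub hu, Real.rpow_one, Real.rpow_neg hu.le]
          ring
        have e2 : (de θ)⁻¹ ^ 2 * ((de θ)⁻¹ ^ 2) ^ (-p) = ((de θ)⁻¹ ^ 2) ^ (1 - p) := by
          rw [Real.rpow_sub hD2, Real.rpow_one, Real.rpow_neg hD2.le]
          ring
        rw [e1]
        calc (de θ)⁻¹ ^ 2 * 0.7 ≤ (de θ)⁻¹ ^ 2 * ((de θ)⁻¹ ^ 2) ^ (-p) :=
              mul_le_mul_of_nonneg_left hr hD2.le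
          _ = ((de θ)⁻¹ ^ 2) ^ (1 - p) := e2
          _ ≤ u ^ (1 - p) := Real.rpow_le_rpow hD2.le hud.le (by linarith)
      have b9 : 0.9 * 0.37 * u ^ (-p) ≤ 0.9 * zf θ (Real.pi / u) * u ^ (-p) := by
        apply mul_le_mul_of_nonneg_right _ hup.le
        apply mul_le_mul_of_nonneg_left (hz2.trans hzu) (by norm_num)
      have b10 : 9 / (de θ * u) < 0.9 * 0.37 * u ^ (-p) := by
        rw [div_lt_iff₀ (by positivity)]
        have e3 : 0.9 * 0.37 * u ^ (-p) * (de θ * u) = 0.9 * 0.37 * de θ * (u * u ^ (-p)) := by ring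
        rw [e3]
        have b11 : 0.9 * 0.37 * de θ * ((de θ)⁻¹ ^ 2 * 0.7) ≤ 0.9 * 0.37 * de θ * (u * u ^ (-p)) :=
          mul_le_mul_of_nonneg_left b8 (by positivity)
        have e4 : 0.9 * 0.37 * de θ * ((de θ)⁻¹ ^ 2 * 0.7) = 0.9 * 0.37 * 0.7 * (de θ)⁻¹ := by
          field_simp
        rw [e4] at b11
        nlinarith
      linarith

end Pool.Agent.Helper79.NR
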